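import Pool.Agent.Seg82.Base

/-! A flattenable arrangement of 13 segments with no 5 pairwise crossing and no 3 pairwise
disjoint members. -/

namespace Pool.Agent.Seg82

/-- the data of the segments -/
def D13 : Fin 13 → Sd := ![
  ⟨20, -155, -6764, 14, 581, -2261, 8, 7⟩,
  ⟨30, -16, -15040, 14, 575, 6787, -1, 60⟩,
  ⟨51, 275, -3250, 14, 684, -2644, -6, 38⟩,
  ⟨57, -100, -5819, 14, 824, 4276, -7, 7⟩,
  ⟨63, 248, -2681, 6, 400, -3154, -15, 43⟩,
  ⟨63, 99, 13139, 14, 316, 134, 33, 5⟩,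
  ⟨63, 99, 8094, 14, 458, 728, 24, -5⟩,
  ⟨63, 99, -1538, 14, 701, 10, 1, 3⟩,
  ⟨63, 99, -2644, 14, 794, 13552, 28, 8⟩,
  ⟨63, 99, -3968, 14, 841, 1352, -29, 6⟩,
  ⟨63, 99, -5281, 14, 896, -223, 18, 35⟩,
  ⟨63, 99, -6510, 14, 909, 11592, 25, 25⟩,
  ⟨63, 175, -10040, 14, 794, 5397, 8, 8⟩]

/-- the rows of the crossing matrix as binary numbers -/
def M13 : Fin 13 → ℕ := ![
  4542, 7477, 3315, 5105, 5775, 2511, 4012, 1661, 6763, 7640, 6870, 5990, 3867]

/-- the crossing relation -/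
def r13 (i j : Fin 13) : Bool := Nat.testBit (M13 i) j.val

theorem good13 : Good 13 4 2 := by
  refine good_of_data D13 r13 ?_ ?_ ?_
  · decide +kernel
  · decide +kernel
  · decide +kernel

end Pool.Agent.Seg82
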