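import Pool.Agent.Seg82.Base

/-! A flattenable arrangement of 22 segments with no 4 pairwise crossing and no 5 pairwise
disjoint members. -/

namespace Pool.Agent.Seg82

/-- the data of the segments -/
def D22 : Fin 22 → Sd := ![
  ⟨-7, -193, 336895, 0, 1099, -75666, -22, 188⟩,
  ⟨0, -20, -672725, 0, -1279, -91941, -1031, 1718⟩,
  ⟨0, -20, -357178, 0, -72, -125057, -262, 1251⟩,
  ⟨0, -20, -133470, 0, -51, 38587, -184, -627⟩,
  ⟨0, -20, -253865, 0, 1147, 207631, -91, 1136⟩,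
  ⟨0, -20, 1483812, 0, 1159, 193266, 3009, -56⟩,
  ⟨0, -20, -262795, 0, 1169, 205449, -153, -299⟩,
  ⟨0, -20, -26296, 0, 1183, -155240, -268, 765⟩,
  ⟨0, -20, 98580, 0, 1207, 693940, -194, 966⟩,
  ⟨0, -20, -581335, 0, 1565, 130171, 744, 852⟩,
  ⟨0, -20, -208484, 0, 1578, 508422, -759, -325⟩,
  ⟨0, -20, 192694, 0, 1585, 355192, -130, 16⟩,
  ⟨0, -20, 93545, 0, 1630, 478290, -273, -867⟩,
  ⟨0, -20, 189574, 0, 1632, 280788, -197, 608⟩,
  ⟨0, -20, -748442, 0, 1650, 239334, 1940, 822⟩,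
  ⟨0, -20, -878978, 0, 1980, 537840, 372, 573⟩,
  ⟨0, -20, 139609, 0, 2004, -159907, -445, 40⟩,
  ⟨0, -20, 278335, 0, 2382, 77196, -259, 212⟩,
  ⟨0, -20, 311962, 0, 2413, 53424, -514, 220⟩,
  ⟨0, -20, 373000, 0, 2780, -281888, -239, 1002⟩,
  ⟨0, -20, 678330, 0, 4086, 351660, -254, 890⟩,
  ⟨3, 343, -7816, 0, 3155, 441998, -493, 1223⟩]

/-- the rows of the crossing matrix as binary numbers -/
def M22 : Fin 22 → ℕ := ![
  451478, 1381509, 3343443, 988368, 2130509, 20416, 34364, 3376683, 3118625, 2114033, 49646, 258080, 1296650, 3131393, 2113057, 2112977, 276878, 1587597, 1646859, 3547400, 3018886, 1631124]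

/-- the crossing relation -/
def r22 (i j : Fin 22) : Bool := Nat.testBit (M22 i) j.val

theorem good22 : Good 22 3 4 := by
  refine good_of_data D22 r22 ?_ ?_ ?_
  · decide +kernel
  · decide +kernel
  · decide +kernel

end Pool.Agent.Seg82
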