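import Pool.Agent.Seg82.Count

/-! Finite base arrangements given by polynomials in a small parameter. -/

namespace Pool.Agent.Seg82

open Filter Topology

/-- evaluation of a polynomial given by the list of its coefficients -/
noncomputable def ev : List ℤ → ℝ → ℝ
  | [], _ => 0
  | a :: l, x => a + x * ev l x

/-- sign of the first non-zero coefficient -/
def sg : List ℤ → ℤ
  | [] => 0
  | a :: l => if a = 0 then sg l else a

lemma ev_continuous (l : List ℤ) : Continuous (ev l) := by
  induction l with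
  | nil => exact continuous_const
  | cons a l ih =>
    have : ev (a :: l) = fun x => (a : ℝ) + x * ev l x := rfl
    rw [this]
    exact continuous_const.add (continuous_id.mul ih)

lemma ev_pos (l : List ℤ) (h : 0 < sg l) : ∀ᶠ x in 𝓝[>] (0 : ℝ), 0 < ev l x := by
  induction l with
  | nil => simp [sg] at h
  | cons a l ih =>
    by_cases ha : a = 0
    · subst ha
      have h' : 0 < sg l := by simpa [sg] using h
      filter_upwards [ih h', self_mem_nhdsWithin] with x hx hx0
      have : ev (0 :: l) x = x * ev l x := by simp [ev]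
      rw [this]
      exact mul_pos hx0 hx
    · have h' : 0 < a := by simpa [sg, ha] using h
      have hc : Tendsto (ev (a :: l)) (𝓝[>] 0) (𝓝 (ev (a :: l) 0)) :=
        ((ev_continuous _).tendsto 0).mono_left nhdsWithin_le_nhds
      have e : ev (a :: l) 0 = a := by simp [ev]
      rw [e] at hc
      have : (0 : ℝ) < a := by exact_mod_cast h'
      exact hc.eventually (lt_mem_nhds this)

lemma ev_neg (l : List ℤ) (h : sg l < 0) : ∀ᶠ x in 𝓝[>] (0 : ℝ), ev l x < 0 := by
  induction l with
  | nil => simp [sg] at h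
  | cons a l ih =>
    by_cases ha : a = 0
    · subst ha
      have h' : sg l < 0 := by simpa [sg] using h
      filter_upwards [ih h', self_mem_nhdsWithin] with x hx hx0
      have : ev (0 :: l) x = x * ev l x := by simp [ev]
      rw [this]
      exact mul_neg_of_pos_of_neg hx0 hx
    · have h' : a < 0 := by simpa [sg, ha] using h
      have hc : Tendsto (ev (a :: l)) (𝓝[>] 0) (𝓝 (ev (a :: l) 0)) :=
        ((ev_continuous _).tendsto 0).mono_left nhdsWithin_le_nhds
      have e : ev (a :: l) 0 = a := by simp [ev]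
      rw [e] at hc
      have : (a : ℝ) < 0 := by exact_mod_cast h'
      exact hc.eventually (gt_mem_nhds this)

/-- data of a segment: the line through `(0, u + a δ + c δ²)` and `(1, v + b δ + d δ²)`, cut at
`x = δ X` and at `x = 1 + δ Y` -/
structure Sd where
  u : ℤ
  a : ℤ
  c : ℤ
  v : ℤ
  b : ℤ
  d : ℤ
  X : ℤ
  Y : ℤ

/-- line `t` minus line `s` at the left end of `t` -/
def pL (s t : Sd) : List ℤ :=
  [t.u - s.u,
   (t.a - s.a) - (t.u - s.u) * t.X + (t.v - s.v) * t.X,
   (t.c - s.c) - (t.a - s.a) * t.X + (t.b - s.b) * t.X,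
   (t.d - s.d) * t.X - (t.c - s.c) * t.X]

/-- line `t` minus line `s` at the right end of `t` -/
def pR (s t : Sd) : List ℤ :=
  [t.v - s.v,
   (t.b - s.b) - (t.u - s.u) * t.Y + (t.v - s.v) * t.Y,
   (t.d - s.d) - (t.a - s.a) * t.Y + (t.b - s.b) * t.Y,
   (t.d - s.d) * t.Y - (t.c - s.c) * t.Y]

/-- height of the line `s` at `x` -/
noncomputable def ln (s : Sd) (δ x : ℝ) : ℝ :=
  (s.u + s.a * δ + s.c * δ ^ 2) +
    ((s.v + s.b * δ + s.d * δ ^ 2) - (s.u + s.a * δ + s.c * δ ^ 2)) * x

/-- left end -/
noncomputable def lp (s : Sd) (δ : ℝ) : ℝ × ℝ := (δ * s.X, δ * ln s δ (δ * s.X))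

/-- right end -/
noncomputable def rp (s : Sd) (δ : ℝ) : ℝ × ℝ := (1 + δ * s.Y, δ * ln s δ (1 + δ * s.Y))

lemma orient_lp (s t : Sd) (δ : ℝ) : orient (lp s δ) (rp s δ) (lp t δ) =
    ((1 + δ * s.Y - δ * s.X) * δ) * ev (pL s t) δ := by
  simp only [orient, lp, rp, ln, pL, ev]
  push_cast
  ring

lemma orient_rp (s t : Sd) (δ : ℝ) : orient (lp s δ) (rp s δ) (rp t δ) =
    ((1 + δ * s.Y - δ * s.X) * δ) * ev (pR s t) δ := by
  simp only [orient, lp, rp, ln, pR, ev]
  push_cast
  ring

lemma eventually_width (s : Sd) : ∀ᶠ δ : ℝ in 𝓝[>] (0 : ℝ),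
    0 < (1 + δ * s.Y - δ * s.X) * δ := by
  have hc : Continuous fun δ : ℝ => 1 + δ * s.Y - δ * s.X := by fun_prop
  have ht : Tendsto (fun δ : ℝ => 1 + δ * s.Y - δ * s.X) (𝓝[>] 0) (𝓝 1) := by
    have := (hc.tendsto 0).mono_left (nhdsWithin_le_nhds (s := Set.Ioi (0 : ℝ)))
    simpa using this
  filter_upwards [ht.eventually (lt_mem_nhds one_pos), self_mem_nhdsWithin] with δ h1 h2
  exact mul_pos h1 h2

/-- sign of the product of the two positions of `t` relative to the line of `s` -/
def sc (s t : Sd) : ℤ := sg (pL s t) * sg (pR s t)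

lemma eventually_neg {s t : Sd} (h : sc s t < 0) : ∀ᶠ δ in 𝓝[>] (0 : ℝ),
    orient (lp s δ) (rp s δ) (lp t δ) * orient (lp s δ) (rp s δ) (rp t δ) < 0 := by
  have h' : (0 < sg (pL s t) ∧ sg (pR s t) < 0) ∨ (sg (pL s t) < 0 ∧ 0 < sg (pR s t)) := by
    exact mul_neg_iff.mp h
  rcases h' with h' | h'
  · filter_upwards [eventually_width s, ev_pos _ h'.1, ev_neg _ h'.2] with δ h1 h2 h3
    rw [orient_lp, orient_rp]
    exact mul_neg_of_pos_of_neg (mul_pos h1 h2) (mul_neg_of_pos_of_neg h1 h3)
  · filter_upwards [eventually_width s, ev_neg _ h'.1, ev_pos _ h'.2] with δ h1 h2 h3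
    rw [orient_lp, orient_rp]
    exact mul_neg_of_neg_of_pos (mul_neg_of_pos_of_neg h1 h2) (mul_pos h1 h3)

lemma eventually_pos {s t : Sd} (h : 0 < sc s t) : ∀ᶠ δ in 𝓝[>] (0 : ℝ),
    0 < orient (lp s δ) (rp s δ) (lp t δ) * orient (lp s δ) (rp s δ) (rp t δ) := by
  have h' : (0 < sg (pL s t) ∧ 0 < sg (pR s t)) ∨ (sg (pL s t) < 0 ∧ sg (pR s t) < 0) := by
    exact mul_pos_iff.mp h
  rcases h' with h' | h'
  · filter_upwards [eventually_width s, ev_pos _ h'.1, ev_pos _ h'.2] with δ h1 h2 h3
    rw [orient_lp, orient_rp]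
    exact mul_pos (mul_pos h1 h2) (mul_pos h1 h3)
  · filter_upwards [eventually_width s, ev_neg _ h'.1, ev_neg _ h'.2] with δ h1 h2 h3
    rw [orient_lp, orient_rp]
    exact mul_pos_of_neg_of_neg (mul_neg_of_pos_of_neg h1 h2) (mul_neg_of_pos_of_neg h1 h3)

/-- crossing, decided by the leading coefficients -/
def crB (s t : Sd) : Bool := decide (sc s t < 0) && decide (sc t s < 0)

/-- disjointness, decided by the leading coefficients -/
def djB (s t : Sd) : Bool := decide (0 < sc s t) || decide (0 < sc t s)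

lemma eventually_cr {s t : Sd} (h : crB s t = true) : ∀ᶠ δ in 𝓝[>] (0 : ℝ),
    Cr (lp s δ) (rp s δ) (lp t δ) (rp t δ) := by
  simp only [crB, Bool.and_eq_true, decide_eq_true_eq] at h
  filter_upwards [eventually_neg h.1, eventually_neg h.2] with δ h1 h2
  exact ⟨h1, h2⟩

lemma eventually_dj {s t : Sd} (h : djB s t = true) : ∀ᶠ δ in 𝓝[>] (0 : ℝ),
    Dj (lp s δ) (rp s δ) (lp t δ) (rp t δ) := by
  simp only [djB, Bool.or_eq_true, decide_eq_true_eq] at h
  rcases h with h | h
  · filter_upwards [eventually_pos h] with δ h1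
    exact Or.inl h1
  · filter_upwards [eventually_pos h] with δ h1
    exact Or.inr h1

lemma eventually_norm (s : Sd) {ε : ℝ} (hε : 0 < ε) : ∀ᶠ δ in 𝓝[>] (0 : ℝ),
    ‖lp s δ‖ ≤ ε ∧ ‖rp s δ - (1, 0)‖ ≤ ε := by
  have c1 : Continuous fun δ : ℝ => ‖lp s δ‖ := by
    unfold lp ln; fun_prop
  have c2 : Continuous fun δ : ℝ => ‖rp s δ - (1, 0)‖ := by
    unfold rp ln; fun_prop
  have z1 : ‖lp s 0‖ = 0 := by simp [lp]
  have z2 : ‖rp s 0 - (1, 0)‖ = 0 := by simp [rp]
  have t1 := (c1.tendsto 0).mono_left (nhdsWithin_le_nhds (s := Set.Ioi (0 : ℝ)))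
  have t2 := (c2.tendsto 0).mono_left (nhdsWithin_le_nhds (s := Set.Ioi (0 : ℝ)))
  rw [z1] at t1
  rw [z2] at t2
  filter_upwards [t1.eventually (gt_mem_nhds hε), t2.eventually (gt_mem_nhds hε)] with δ h1 h2
  exact ⟨h1.le, h2.le⟩

theorem flat_of_data {n : ℕ} (D : Fin n → Sd)
    (h : ∀ i j : Fin n, i ≠ j → (crB (D i) (D j) || djB (D i) (D j)) = true) :
    Flat fun i j => crB (D i) (D j) = true := by
  intro ε hε
  have key : ∀ᶠ δ in 𝓝[>] (0 : ℝ), (∀ i, ‖lp (D i) δ‖ ≤ ε ∧ ‖rp (D i) δ - (1, 0)‖ ≤ ε) ∧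
      ∀ i j, i ≠ j →
        (crB (D i) (D j) = true → Cr (lp (D i) δ) (rp (D i) δ) (lp (D j) δ) (rp (D j) δ)) ∧
        (¬ crB (D i) (D j) = true → Dj (lp (D i) δ) (rp (D i) δ) (lp (D j) δ) (rp (D j) δ)) := by
    refine Filter.Eventually.and ?_ ?_
    · rw [eventually_all]
      exact fun i => eventually_norm (D i) hε
    · rw [eventually_all]
      intro i
      rw [eventually_all]
      intro j
      by_cases hij : i = j
      · exact Eventually.of_forall fun δ h' => absurd hij h'
      by_cases hc : crB (D i) (D j) = true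
      · filter_upwards [eventually_cr hc] with δ h1 _
        exact ⟨fun _ => h1, fun h2 => absurd hc h2⟩
      · have hd : djB (D i) (D j) = true := by
          have := h i j hij
          rw [Bool.or_eq_true] at this
          exact this.resolve_left hc
        filter_upwards [eventually_dj hd] with δ h1 _
        exact ⟨fun h2 => absurd h2 hc, fun _ => h1⟩
  obtain ⟨δ, hδ⟩ := key.exists
  exact ⟨fun i => lp (D i) δ, fun i => rp (D i) δ, hδ.1, hδ.2⟩

/-- one level of the clique search -/
def step {α : Type} (r : α → α → Bool) (prev : List α → Bool) : List α → Bool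
  | [] => true
  | x :: xs => prev (xs.filter (r x)) && step r prev xs

/-- `true` when the list has no sublist of length `k` with all pairs related by `r` -/
def cl {α : Type} (r : α → α → Bool) : ℕ → List α → Bool
  | 0 => fun _ => false
  | k + 1 => step r (cl r k)

lemma cl_spec {α : Type} (r : α → α → Bool) (k : ℕ) : ∀ l : List α, cl r k l = true →
    ∀ T : List α, T.Sublist l → T.Pairwise (fun x y => r x y = true) → T.length < k := by
  induction k with
  | zero => intro l h; simp [cl] at h
  | succ k ih =>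
    intro l
    induction l with
    | nil =>
      intro _ T hT _
      rw [List.sublist_nil.mp hT]
      exact Nat.succ_pos _
    | cons x xs ihl =>
      intro h T hT hp
      simp only [cl, step, Bool.and_eq_true] at h
      cases hT with
      | cons _ hT => exact ihl h.2 T hT hp
      | cons_cons _ hT =>
        rename_i T'
        rw [List.pairwise_cons] at hp
        have h1 : T'.Sublist (xs.filter (r x)) := by
          have := hT.filter (r x)
          rwa [List.filter_eq_self.mpr (fun y hy => hp.1 y hy)] at this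
        have := ih _ h.1 T' h1 hp.2
        simpa using this

lemma bd_of_cl {n k l : ℕ} (r : Fin n → Fin n → Bool) (h1 : cl r (k + 1) (List.finRange n) = true)
    (h2 : cl (fun x y => !r x y) (l + 1) (List.finRange n) = true) :
    Bd (fun i j => r i j = true) k l := by
  classical
  have key : ∀ T : Finset (Fin n), ((List.finRange n).filter (fun x => decide (x ∈ T))).length
      = T.card := by
    intro T
    have hn : ((List.finRange n).filter (fun x => decide (x ∈ T))).Nodup :=
      (List.nodup_finRange n).filter _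
    rw [← List.toFinset_card_of_nodup hn]
    congr 1
    ext x
    simp
  have hp : ∀ (T : Finset (Fin n)) (q : Fin n → Fin n → Prop), (∀ x ∈ T, ∀ y ∈ T, x ≠ y → q x y) →
      ((List.finRange n).filter (fun x => decide (x ∈ T))).Pairwise q := by
    intro T q hq
    have hn : ((List.finRange n).filter (fun x => decide (x ∈ T))).Nodup :=
      (List.nodup_finRange n).filter _
    refine List.Pairwise.imp_of_mem ?_ hn
    intro a b ha hb hab
    simp only [List.mem_filter, decide_eq_true_eq] at ha hb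
    exact hq a ha.2 b hb.2 hab
  constructor
  · intro T hT
    rw [← key T]
    exact Nat.lt_succ_iff.mp (cl_spec r (k + 1) _ h1 _ List.filter_sublist
      (hp T _ hT))
  · intro T hT
    rw [← key T]
    refine Nat.lt_succ_iff.mp (cl_spec _ (l + 1) _ h2 _ List.filter_sublist (hp T _ ?_))
    intro x hx y hy hxy
    simpa using hT x hx y hy hxy

theorem good_of_data {n k l : ℕ} (D : Fin n → Sd) (r : Fin n → Fin n → Bool)
    (h : ∀ i j : Fin n, i ≠ j → (r i j = crB (D i) (D j) ∧
      (crB (D i) (D j) || djB (D i) (D j)) = true))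
    (h1 : cl r (k + 1) (List.finRange n) = true)
    (h2 : cl (fun x y => !r x y) (l + 1) (List.finRange n) = true) : Good n k l := by
  refine ⟨fun i j => r i j = true, ?_, bd_of_cl r h1 h2⟩
  intro ε hε
  obtain ⟨p, q, g1, g2⟩ := flat_of_data D (fun i j hij => (h i j hij).2) ε hε
  refine ⟨p, q, g1, fun v w hvw => ?_⟩
  have e := (h v w hvw).1
  have g := g2 v w hvw
  beta_reduce at g ⊢
  rw [e]
  exact g

end Pool.Agent.Seg82
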