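import Pool.Agent.Seg82.Flat

/-! Clique and independence bounds, powers, and the extremal function. -/

namespace Pool.Agent.Seg82

/-- cliques of the pattern have at most `k` and independent sets at most `l` elements -/
def Bd {V : Type} (G : V → V → Prop) (k l : ℕ) : Prop :=
  (∀ T : Finset V, (∀ x ∈ T, ∀ y ∈ T, x ≠ y → G x y) → T.card ≤ k) ∧
  (∀ T : Finset V, (∀ x ∈ T, ∀ y ∈ T, x ≠ y → ¬ G x y) → T.card ≤ l)

lemma card_le_lex {V W : Type} [DecidableEq V] [DecidableEq W] (T : Finset (V × W)) (k k' : ℕ)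
    (h1 : (T.image Prod.fst).card ≤ k)
    (h2 : ∀ v ∈ T.image Prod.fst, ((T.filter fun x => x.1 = v).image Prod.snd).card ≤ k') :
    T.card ≤ k * k' := by
  have e : ∀ v ∈ T.image Prod.fst, (T.filter fun x => x.1 = v).card ≤ k' := by
    intro v hv
    rw [← Finset.card_image_of_injOn (s := T.filter fun x => x.1 = v) (f := Prod.snd)]
    · exact h2 v hv
    · intro x hx y hy hxy
      simp only [Finset.coe_filter, Set.mem_ofPred_eq] at hx hy
      exact Prod.ext (hx.2.trans hy.2.symm) hxy
  have := Finset.card_le_mul_card_image (s := T) (f := Prod.fst) k' e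
  calc T.card ≤ k' * (T.image Prod.fst).card := this
    _ ≤ k' * k := Nat.mul_le_mul_left _ h1
    _ = k * k' := mul_comm _ _

theorem Bd.lex {V W : Type} {G : V → V → Prop} {H : W → W → Prop} {k l k' l' : ℕ}
    (hG : Bd G k l) (hH : Bd H k' l') : Bd (lex G H) (k * k') (l * l') := by
  classical
  constructor
  · intro T hT
    apply card_le_lex
    · apply hG.1
      intro v hv w hw hvw
      simp only [Finset.mem_image] at hv hw
      obtain ⟨x, hx, rfl⟩ := hv
      obtain ⟨y, hy, rfl⟩ := hw
      have hxy : x ≠ y := fun h => hvw (by rw [h])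
      rcases hT x hx y hy hxy with h | h
      · exact h.2
      · exact absurd h.1 hvw
    · intro v _
      apply hH.1
      intro a ha b hb hab
      simp only [Finset.mem_image, Finset.mem_filter] at ha hb
      obtain ⟨x, ⟨hx, hxv⟩, rfl⟩ := ha
      obtain ⟨y, ⟨hy, hyv⟩, rfl⟩ := hb
      have hxy : x ≠ y := fun h => hab (by rw [h])
      rcases hT x hx y hy hxy with h | h
      · exact absurd (hxv.trans hyv.symm) h.1
      · exact h.2
  · intro T hT
    apply card_le_lex
    · apply hG.2
      intro v hv w hw hvw hg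
      simp only [Finset.mem_image] at hv hw
      obtain ⟨x, hx, rfl⟩ := hv
      obtain ⟨y, hy, rfl⟩ := hw
      have hxy : x ≠ y := fun h => hvw (by rw [h])
      exact hT x hx y hy hxy (Or.inl ⟨hvw, hg⟩)
    · intro v _
      apply hH.2
      intro a ha b hb hab hh
      simp only [Finset.mem_image, Finset.mem_filter] at ha hb
      obtain ⟨x, ⟨hx, hxv⟩, rfl⟩ := ha
      obtain ⟨y, ⟨hy, hyv⟩, rfl⟩ := hb
      have hxy : x ≠ y := fun h => hab (by rw [h])
      exact hT x hx y hy hxy (Or.inr ⟨hxv.trans hyv.symm, hh⟩)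

lemma Bd.congr {V W : Type} {G : V → V → Prop} {k l : ℕ} (hG : Bd G k l) (f : W → V)
    (hf : Function.Injective f) : Bd (fun x y => G (f x) (f y)) k l := by
  classical
  constructor
  · intro T hT
    rw [← Finset.card_image_of_injective T hf]
    apply hG.1
    intro v hv w hw hvw
    simp only [Finset.mem_image] at hv hw
    obtain ⟨x, hx, rfl⟩ := hv
    obtain ⟨y, hy, rfl⟩ := hw
    exact hT x hx y hy (fun h => hvw (by rw [h]))
  · intro T hT
    rw [← Finset.card_image_of_injective T hf]
    apply hG.2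
    intro v hv w hw hvw
    simp only [Finset.mem_image] at hv hw
    obtain ⟨x, hx, rfl⟩ := hv
    obtain ⟨y, hy, rfl⟩ := hw
    exact hT x hx y hy (fun h => hvw (by rw [h]))

/-- there is a flattenable pattern on `n` segments with cliques `≤ k`, independent sets `≤ l` -/
def Good (n k l : ℕ) : Prop := ∃ G : Fin n → Fin n → Prop, Flat G ∧ Bd G k l

lemma Good.mul {n k l n' k' l' : ℕ} (h : Good n k l) (h' : Good n' k' l') :
    Good (n * n') (k * k') (l * l') := by
  obtain ⟨G, h1, h2⟩ := h
  obtain ⟨H, g1, g2⟩ := h'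
  exact ⟨_, (h1.lex g1).congr _ (finProdFinEquiv.symm.injective),
    (h2.lex g2).congr _ (finProdFinEquiv.symm.injective)⟩

lemma Good.one : Good 1 1 1 := by
  refine ⟨fun _ _ => True, ?_, ?_, ?_⟩
  · intro ε hε
    refine ⟨fun _ => (0, 0), fun _ => (1, 0), fun v => ?_, fun v w h => ?_⟩
    · constructor
      · have : ((0 : ℝ), (0 : ℝ)) = 0 := rfl
        rw [this, norm_zero]; exact hε.le
      · rw [sub_self, norm_zero]; exact hε.le
    · exact absurd (Subsingleton.elim v w) h
  · intro T _
    simpa using Finset.card_le_univ T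
  · intro T _
    simpa using Finset.card_le_univ T

lemma Good.pow {n k l : ℕ} (h : Good n k l) (j : ℕ) : Good (n ^ j) (k ^ j) (l ^ j) := by
  induction j with
  | zero => simpa using Good.one
  | succ j ih => simpa [pow_succ] using ih.mul h

/-- open segments of the plane -/
def IsSeg (s : Set (ℝ × ℝ)) : Prop := ∃ a b : ℝ × ℝ, a ≠ b ∧ s = openSegment ℝ a b

/-- pairwise crossing or pairwise disjoint -/
def Homog (T : Finset (Set (ℝ × ℝ))) : Prop :=
  ((T : Set (Set (ℝ × ℝ))).Pairwise fun s t => (s ∩ t).Nonempty) ∨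
    (T : Set (Set (ℝ × ℝ))).Pairwise Disjoint

lemma Cr.ne {p q r s : ℝ × ℝ} (h : Cr p q r s) : p ≠ q := by
  rintro rfl
  have := h.1
  simp [orient] at this

theorem exists_family {n k : ℕ} (h : Good n k k) {m : ℕ} (hm : m ≤ n) :
    ∃ S : Finset (Set (ℝ × ℝ)), S.card = m ∧ (∀ s ∈ S, IsSeg s) ∧
      ∀ T ⊆ S, Homog T → T.card ≤ k := by
  classical
  obtain ⟨G, hG, hB⟩ := h
  obtain ⟨p, q, h1, h2⟩ := hG (1 / 4) (by norm_num)
  have hpq : ∀ v, p v ≠ q v := by
    intro v hv
    have a1 := norm_fst_le (p v)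
    have a2 := norm_fst_le (q v - (1, 0))
    have b1 := a1.trans (h1 v).1
    have b2 := a2.trans (h1 v).2
    simp only [Real.norm_eq_abs, Prod.fst_sub, abs_le] at b1 b2
    rw [hv] at b1
    linarith [b1.1, b1.2, b2.1, b2.2]
  set F : Fin n → Set (ℝ × ℝ) := fun v => openSegment ℝ (p v) (q v) with hF
  have hself : ∀ v, (F v).Nonempty := fun v =>
    ⟨(1 / 2 : ℝ) • p v + (1 / 2 : ℝ) • q v, 1 / 2, 1 / 2, by norm_num, by norm_num, by norm_num, rfl⟩
  have hinj : Function.Injective F := by
    intro v w hvw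
    by_contra hne
    by_cases hg : G v w
    · have hc := (h2 v w hne).1 hg
      -- points of `F w` are on the line of `v`
      have h0 : ∀ x ∈ openSegment ℝ (p w) (q w), orient (p v) (q v) x = 0 := by
        intro x hx
        apply orient_openSegment
        have : F v = F w := hvw
        simp only [hF] at this
        rw [this]; exact hx
      have e1 : orient (p v) (q v) ((1 / 2 : ℝ) • p w + (1 / 2 : ℝ) • q w) = 0 :=
        h0 _ ⟨1 / 2, 1 / 2, by norm_num, by norm_num, by norm_num, rfl⟩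
      have e2 : orient (p v) (q v) ((1 / 3 : ℝ) • p w + (2 / 3 : ℝ) • q w) = 0 :=
        h0 _ ⟨1 / 3, 2 / 3, by norm_num, by norm_num, by norm_num, rfl⟩
      rw [orient_comb _ _ _ _ _ _ (by norm_num)] at e1 e2
      have e3 : orient (p v) (q v) (p w) = 0 := by linarith
      have := hc.1
      rw [e3] at this
      simp at this
    · have hd := ((h2 v w hne).2 hg).disjoint
      have : F v = F w := hvw
      simp only [hF] at this
      rw [this, disjoint_self] at hd
      exact (hself w).ne_empty hd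
  obtain ⟨A, hA1, hA2⟩ := Finset.exists_subset_card_eq
    (s := (Finset.univ : Finset (Fin n))) (n := m) (by simpa using hm)
  refine ⟨A.image F, ?_, ?_, ?_⟩
  · rw [Finset.card_image_of_injective _ hinj, hA2]
  · intro s hs
    simp only [Finset.mem_image] at hs
    obtain ⟨v, -, rfl⟩ := hs
    exact ⟨p v, q v, hpq v, rfl⟩
  · intro T hT hH
    have hpre : ∃ B : Finset (Fin n), B.image F = T := by
      refine ⟨Finset.univ.filter fun v => F v ∈ T, ?_⟩
      ext s
      simp only [Finset.mem_image, Finset.mem_filter, Finset.mem_univ, true_and]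
      constructor
      · rintro ⟨v, hv, rfl⟩; exact hv
      · intro hs
        have := hT hs
        simp only [Finset.mem_image] at this
        obtain ⟨v, -, rfl⟩ := this
        exact ⟨v, hs, rfl⟩
    obtain ⟨B, rfl⟩ := hpre
    rw [Finset.card_image_of_injective _ hinj]
    rcases hH with hH | hH
    · apply hB.1
      intro x hx y hy hxy
      by_contra hg
      have hd := ((h2 x y hxy).2 hg).disjoint
      have := hH (Finset.mem_coe.mpr (Finset.mem_image_of_mem F hx))
        (Finset.mem_coe.mpr (Finset.mem_image_of_mem F hy)) (fun h => hxy (hinj h))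
      rw [Set.disjoint_iff_inter_eq_empty] at hd
      exact this.ne_empty hd
    · apply hB.2
      intro x hx y hy hxy hg
      have hc := ((h2 x y hxy).1 hg).nonempty
      have := hH (Finset.mem_coe.mpr (Finset.mem_image_of_mem F hx))
        (Finset.mem_coe.mpr (Finset.mem_image_of_mem F hy)) (fun h => hxy (hinj h))
      rw [Set.disjoint_iff_inter_eq_empty] at this
      exact hc.ne_empty this

lemma Good.mono {n k l k' l' : ℕ} (h : Good n k l) (hk : k ≤ k') (hl : l ≤ l') :
    Good n k' l' := by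
  obtain ⟨G, h1, h2⟩ := h
  exact ⟨G, h1, fun T hT => (h2.1 T hT).trans hk, fun T hT => (h2.2 T hT).trans hl⟩

/-- the families obtained from the powers of a base arrangement -/
theorem family_le {n k : ℕ} (h : Good n k k) (hn : 2 ≤ n) (hk : 1 ≤ k) (c : ℝ) (hc0 : 0 ≤ c)
    (hc : (k : ℝ) ≤ (n : ℝ) ^ c) {m : ℕ} (hm : 1 ≤ m) :
    ∃ S : Finset (Set (ℝ × ℝ)), S.card = m ∧ (∀ s ∈ S, IsSeg s) ∧
      ∀ T ⊆ S, Homog T → (T.card : ℝ) ≤ k * (m : ℝ) ^ c := by
  have hn' : (1 : ℝ) < n := by exact_mod_cast hn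
  have hm' : (1 : ℝ) ≤ m := by exact_mod_cast hm
  have hk' : (1 : ℝ) ≤ k := by exact_mod_cast hk
  have h1 : m ≤ n ^ (Nat.clog n m) := Nat.le_pow_clog hn m
  rcases Nat.eq_zero_or_pos (Nat.clog n m) with h0 | h0
  · have hmn : m ≤ n := by
      rw [h0, pow_zero] at h1
      omega
    obtain ⟨S, s1, s2, s3⟩ := exists_family h hmn
    refine ⟨S, s1, s2, fun T hT hH => ?_⟩
    have h3 : (T.card : ℝ) ≤ k := by exact_mod_cast s3 T hT hH
    have h4 : (1 : ℝ) ≤ (m : ℝ) ^ c := Real.one_le_rpow hm' hc0
    nlinarith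
  · have h2 : n ^ (Nat.clog n m - 1) < m := by
      apply Nat.pow_pred_clog_lt_self hn
      by_contra hlt
      have hm1 : m = 1 := by omega
      rw [hm1, Nat.clog_one_right] at h0
      omega
    obtain ⟨S, s1, s2, s3⟩ := exists_family (h.pow (Nat.clog n m)) h1
    refine ⟨S, s1, s2, fun T hT hH => ?_⟩
    have h4 : (T.card : ℝ) ≤ (k : ℝ) ^ (Nat.clog n m) := by exact_mod_cast s3 T hT hH
    have h5 : (k : ℝ) ^ (Nat.clog n m - 1) ≤ (m : ℝ) ^ c := by
      calc (k : ℝ) ^ (Nat.clog n m - 1) ≤ ((n : ℝ) ^ c) ^ (Nat.clog n m - 1) :=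
            pow_le_pow_left₀ (by linarith) hc _
        _ = ((n : ℝ) ^ (Nat.clog n m - 1)) ^ c := by
            rw [← Real.rpow_natCast, ← Real.rpow_mul (by linarith), mul_comm,
              Real.rpow_mul (by linarith), Real.rpow_natCast]
        _ ≤ (m : ℝ) ^ c := by
            apply Real.rpow_le_rpow (by positivity) _ hc0
            exact_mod_cast h2.le
    calc (T.card : ℝ) ≤ (k : ℝ) ^ (Nat.clog n m) := h4
      _ = k * (k : ℝ) ^ (Nat.clog n m - 1) := by
        rw [← pow_succ', Nat.sub_add_cancel h0]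
      _ ≤ _ := mul_le_mul_of_nonneg_left h5 (by linarith)

end Pool.Agent.Seg82
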