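import Pool.Agent.Seg82.Geom

/-! Flattenable intersection patterns and their lexicographic products. -/

namespace Pool.Agent.Seg82

/-- the pattern `G` is realised by segments from a neighbourhood of `(0,0)` to a neighbourhood of
`(1,0)`, as small as we wish -/
def Flat {V : Type} (G : V → V → Prop) : Prop :=
  ∀ ε : ℝ, 0 < ε → ∃ p q : V → ℝ × ℝ, (∀ v, ‖p v‖ ≤ ε ∧ ‖q v - (1, 0)‖ ≤ ε) ∧
    ∀ v w, v ≠ w → (G v w → Cr (p v) (q v) (p w) (q w)) ∧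
      (¬ G v w → Dj (p v) (q v) (p w) (q w))

/-- lexicographic product of patterns -/
def lex {V W : Type} (G : V → V → Prop) (H : W → W → Prop) (x y : V × W) : Prop :=
  (x.1 ≠ y.1 ∧ G x.1 y.1) ∨ (x.1 = y.1 ∧ H x.2 y.2)

lemma Flat.congr {V W : Type} {G : V → V → Prop} (hG : Flat G) (f : W → V)
    (hf : Function.Injective f) : Flat (fun x y => G (f x) (f y)) := by
  intro ε hε
  obtain ⟨p, q, h1, h2⟩ := hG ε hε
  exact ⟨fun x => p (f x), fun x => q (f x), fun x => h1 (f x),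
    fun v w hvw => h2 (f v) (f w) (fun h => hvw (hf h))⟩

lemma norm_aff_sub {p q z : ℝ × ℝ} {d : ℝ} (hp : ‖p‖ ≤ 1 / 4) (hq : ‖q - (1, 0)‖ ≤ 1 / 4)
    (hz : ‖z‖ ≤ d) : ‖aff p q z - p‖ ≤ 3 * d := by
  rw [Prod.norm_def, max_le_iff] at *
  simp only [Prod.fst_sub, Prod.snd_sub, Real.norm_eq_abs, aff, abs_le] at *
  obtain ⟨⟨p1, p2⟩, p3, p4⟩ := hp
  obtain ⟨⟨q1, q2⟩, q3, q4⟩ := hq
  obtain ⟨⟨z1, z2⟩, z3, z4⟩ := hz
  have hd : 0 ≤ d := by linarith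
  have b1 : |z.1 * (q.1 - p.1)| ≤ d * 2 := by
    rw [abs_mul]
    apply mul_le_mul (abs_le.mpr ⟨z1, z2⟩) _ (abs_nonneg _) hd
    rw [abs_le]; constructor <;> linarith
  have b2 : |z.1 * (q.2 - p.2)| ≤ d * 2 := by
    rw [abs_mul]
    apply mul_le_mul (abs_le.mpr ⟨z1, z2⟩) _ (abs_nonneg _) hd
    rw [abs_le]; constructor <;> linarith
  rw [abs_le] at b1 b2
  refine ⟨⟨?_, ?_⟩, ?_, ?_⟩ <;> linarith [b1.1, b1.2, b2.1, b2.2]

lemma norm_aff_sub' {p q z : ℝ × ℝ} {d : ℝ} (hp : ‖p‖ ≤ 1 / 4) (hq : ‖q - (1, 0)‖ ≤ 1 / 4)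
    (hz : ‖z - (1, 0)‖ ≤ d) : ‖aff p q z - q‖ ≤ 3 * d := by
  have h := norm_aff_sub hp hq hz
  have e : aff p q z - q = aff p q (z - (1, 0)) - p := by
    ext
    · simp [aff]; ring
    · simp [aff]; ring
  rw [e]; exact h

theorem Flat.lex {V W : Type} [Finite V] {G : V → V → Prop} {H : W → W → Prop} (hG : Flat G)
    (hH : Flat H) : Flat (lex G H) := by
  classical
  intro ε hε
  obtain ⟨p, q, h1, h2⟩ := hG (min (ε / 2) (1 / 4)) (by positivity)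
  -- uniform stability constant
  have hst : ∀ v w : V, ∃ η > 0, v ≠ w → ∀ p' q' r' s' : ℝ × ℝ,
      ‖p' - p v‖ < η → ‖q' - q v‖ < η → ‖r' - p w‖ < η → ‖s' - q w‖ < η →
      (G v w → Cr p' q' r' s') ∧ (¬ G v w → Dj p' q' r' s') := by
    intro v w
    by_cases hvw : v = w
    · exact ⟨1, one_pos, fun h => absurd hvw h⟩
    by_cases hg : G v w
    · obtain ⟨η, hη, hs⟩ := ((h2 v w hvw).1 hg).stable
      exact ⟨η, hη, fun _ p' q' r' s' a1 a2 a3 a4 =>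
        ⟨fun _ => hs p' q' r' s' a1 a2 a3 a4, fun h => absurd hg h⟩⟩
    · obtain ⟨η, hη, hs⟩ := ((h2 v w hvw).2 hg).stable
      exact ⟨η, hη, fun _ p' q' r' s' a1 a2 a3 a4 =>
        ⟨fun h => absurd h hg, fun _ => hs p' q' r' s' a1 a2 a3 a4⟩⟩
  choose η hη hs using hst
  obtain ⟨η₀, hη₀, hle⟩ : ∃ η₀ > 0, ∀ v w, η₀ ≤ η v w := by
    have := Fintype.ofFinite V
    by_cases hV : IsEmpty V
    · exact ⟨1, one_pos, fun v => (hV.false v).elim⟩
    rw [not_isEmpty_iff] at hV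
    obtain ⟨x, -, hx⟩ := Finset.exists_min_image (Finset.univ : Finset (V × V))
      (fun x => η x.1 x.2) Finset.univ_nonempty
    exact ⟨η x.1 x.2, hη _ _, fun v w => hx (v, w) (Finset.mem_univ _)⟩
  have hd : 0 < min (η₀ / 4) (ε / 6) := by positivity
  obtain ⟨p', q', g1, g2⟩ := hH (min (η₀ / 4) (ε / 6)) hd
  have n1 : ∀ v, ‖p v‖ ≤ 1 / 4 := fun v => (h1 v).1.trans (min_le_right _ _)
  have n2 : ∀ v, ‖q v - (1, 0)‖ ≤ 1 / 4 := fun v => (h1 v).2.trans (min_le_right _ _)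
  have m1 : ∀ v, ‖p v‖ ≤ ε / 2 := fun v => (h1 v).1.trans (min_le_left _ _)
  have m2 : ∀ v, ‖q v - (1, 0)‖ ≤ ε / 2 := fun v => (h1 v).2.trans (min_le_left _ _)
  have k1 : ∀ v w, ‖aff (p v) (q v) (p' w) - p v‖ ≤ 3 * min (η₀ / 4) (ε / 6) := fun v w =>
    norm_aff_sub (n1 v) (n2 v) (g1 w).1
  have k2 : ∀ v w, ‖aff (p v) (q v) (q' w) - q v‖ ≤ 3 * min (η₀ / 4) (ε / 6) := fun v w =>
    norm_aff_sub' (n1 v) (n2 v) (g1 w).2
  have l1 : 3 * min (η₀ / 4) (ε / 6) < η₀ := by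
    have := min_le_left (η₀ / 4) (ε / 6)
    linarith
  have l2 : 3 * min (η₀ / 4) (ε / 6) ≤ ε / 2 := by
    have := min_le_right (η₀ / 4) (ε / 6)
    linarith
  have hne : ∀ v, (q v).1 - (p v).1 ≠ 0 := by
    intro v
    have a1 := norm_fst_le (p v)
    have a2 := norm_fst_le (q v - (1, 0))
    have b1 := a1.trans (n1 v)
    have b2 := a2.trans (n2 v)
    simp only [Real.norm_eq_abs, Prod.fst_sub, abs_le] at b1 b2
    intro h
    linarith [b1.1, b1.2, b2.1, b2.2]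
  refine ⟨fun x => aff (p x.1) (q x.1) (p' x.2), fun x => aff (p x.1) (q x.1) (q' x.2), ?_, ?_⟩
  · intro x
    constructor
    · have := norm_add_le (aff (p x.1) (q x.1) (p' x.2) - p x.1) (p x.1)
      rw [sub_add_cancel] at this
      linarith [k1 x.1 x.2, m1 x.1]
    · have := norm_add_le (aff (p x.1) (q x.1) (q' x.2) - q x.1) (q x.1 - (1, 0))
      rw [sub_add_sub_cancel] at this
      linarith [k2 x.1 x.2, m2 x.1]
  · rintro ⟨v, a⟩ ⟨w, b⟩ hne'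
    by_cases hvw : v = w
    · subst hvw
      have hab : a ≠ b := fun h => hne' (by rw [h])
      have e : Seg82.lex G H (v, a) (v, b) ↔ H a b := by simp [Seg82.lex]
      rw [e]
      exact ⟨fun h => ((g2 a b hab).1 h).aff (hne v), fun h => ((g2 a b hab).2 h).aff (hne v)⟩
    · have e : Seg82.lex G H (v, a) (w, b) ↔ G v w := by simp [Seg82.lex, hvw]
      rw [e]
      have hη' : 3 * min (η₀ / 4) (ε / 6) < η v w := lt_of_lt_of_le l1 (hle v w)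
      exact hs v w hvw _ _ _ _ (lt_of_le_of_lt (k1 v a) hη') (lt_of_le_of_lt (k2 v a) hη')
        (lt_of_le_of_lt (k1 w b) hη') (lt_of_le_of_lt (k2 w b) hη')

end Pool.Agent.Seg82
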