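import Mathlib

/-! Segments in the plane: strict crossing and strict separation by orientations. -/

namespace Pool.Agent.Seg82

/-- twice the signed area of the triangle `a b c` -/
def orient (a b c : ℝ × ℝ) : ℝ := (b.1 - a.1) * (c.2 - a.2) - (b.2 - a.2) * (c.1 - a.1)

/-- the segments `pq` and `rs` cross properly -/
def Cr (p q r s : ℝ × ℝ) : Prop :=
  orient p q r * orient p q s < 0 ∧ orient r s p * orient r s q < 0

/-- one of the segments `pq`, `rs` lies strictly on one side of the line of the other -/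
def Dj (p q r s : ℝ × ℝ) : Prop :=
  0 < orient p q r * orient p q s ∨ 0 < orient r s p * orient r s q

lemma Cr.symm {p q r s : ℝ × ℝ} (h : Cr p q r s) : Cr r s p q := ⟨h.2, h.1⟩

lemma Dj.symm {p q r s : ℝ × ℝ} (h : Dj p q r s) : Dj r s p q := Or.symm h

lemma Cr.not_dj {p q r s : ℝ × ℝ} (h : Cr p q r s) : ¬ Dj p q r s := by
  rintro (h1 | h1)
  · exact absurd h.1 (not_lt.mpr h1.le)
  · exact absurd h.2 (not_lt.mpr h1.le)

lemma orient_comb (p q r s : ℝ × ℝ) (a b : ℝ) (hab : a + b = 1) :
    orient p q (a • r + b • s) = a * orient p q r + b * orient p q s := by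
  have hb : b = 1 - a := by linarith
  subst hb
  simp only [orient, Prod.fst_add, Prod.snd_add, Prod.smul_fst, Prod.smul_snd, smul_eq_mul]
  ring

lemma orient_left (p q : ℝ × ℝ) : orient p q p = 0 := by simp [orient]

lemma orient_right (p q : ℝ × ℝ) : orient p q q = 0 := by
  simp only [orient]; ring

lemma orient_openSegment {p q x : ℝ × ℝ} (h : x ∈ openSegment ℝ p q) : orient p q x = 0 := by
  obtain ⟨a, b, -, -, hab, rfl⟩ := h
  rw [orient_comb _ _ _ _ _ _ hab, orient_left, orient_right]
  ring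

lemma disjoint_aux {p q r s : ℝ × ℝ} (h : 0 < orient p q r * orient p q s) :
    Disjoint (openSegment ℝ p q) (openSegment ℝ r s) := by
  rw [Set.disjoint_left]
  intro x hx hx'
  have h0 := orient_openSegment hx
  obtain ⟨a, b, ha, hb, hab, rfl⟩ := hx'
  rw [orient_comb _ _ _ _ _ _ hab] at h0
  have h1 : a * (orient p q r * orient p q s) + b * (orient p q s) ^ 2 = 0 := by
    linear_combination orient p q s * h0
  have h2 : 0 < a * (orient p q r * orient p q s) := mul_pos ha h
  have h3 : 0 ≤ b * (orient p q s) ^ 2 := mul_nonneg hb.le (sq_nonneg _)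
  linarith

lemma Dj.disjoint {p q r s : ℝ × ℝ} (h : Dj p q r s) :
    Disjoint (openSegment ℝ p q) (openSegment ℝ r s) := by
  rcases h with h | h
  · exact disjoint_aux h
  · exact (disjoint_aux h).symm

lemma Cr.nonempty {p q r s : ℝ × ℝ} (h : Cr p q r s) :
    (openSegment ℝ p q ∩ openSegment ℝ r s).Nonempty := by
  obtain ⟨h1, h2⟩ := h
  set A := orient p q r with hA
  set B := orient p q s with hB
  set C := orient r s p with hC
  set D := orient r s q with hD
  have hK : B - A = C - D := by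
    simp only [hA, hB, hC, hD, orient]; ring
  have hAB : B - A ≠ 0 := by
    intro h0
    have : A = B := by linarith
    rw [this] at h1
    nlinarith [sq_nonneg B]
  have hw : ∀ x y : ℝ, x * y < 0 → 0 < y / (y - x) ∧ 0 < -x / (y - x) := by
    intro x y hxy
    rcases lt_trichotomy x 0 with hx | hx | hx
    · have hy : 0 < y := by
        by_contra hy
        nlinarith [mul_nonneg_of_nonpos_of_nonpos hx.le (not_lt.mp hy)]
      have : 0 < y - x := by linarith
      exact ⟨div_pos hy this, div_pos (by linarith) this⟩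
    · rw [hx] at hxy; simp at hxy
    · have hy : y < 0 := by
        by_contra hy
        nlinarith [mul_nonneg hx.le (not_lt.mp hy)]
      have : y - x < 0 := by linarith
      exact ⟨div_pos_of_neg_of_neg hy this, div_pos_of_neg_of_neg (by linarith) this⟩
  obtain ⟨ha, hb⟩ := hw A B h1
  obtain ⟨hc, hd⟩ := hw C D h2
  have hCD : D - C ≠ 0 := by
    intro h0; apply hAB; linarith
  refine ⟨(B / (B - A)) • r + (-A / (B - A)) • s, ?_, ?_⟩
  · refine ⟨D / (D - C), -C / (D - C), hc, hd, ?_, ?_⟩
    · field_simp; ring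
    · have e : D - C = -(B - A) := by linarith
      have key1 : B * r.1 - A * s.1 = C * q.1 - D * p.1 := by
        simp only [hA, hB, hC, hD, orient]; ring
      have key2 : B * r.2 - A * s.2 = C * q.2 - D * p.2 := by
        simp only [hA, hB, hC, hD, orient]; ring
      ext
      · simp only [Prod.fst_add, Prod.smul_fst, smul_eq_mul]
        rw [e]
        field_simp
        linarith
      · simp only [Prod.snd_add, Prod.smul_snd, smul_eq_mul]
        rw [e]
        field_simp
        linarith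
  · refine ⟨B / (B - A), -A / (B - A), ha, hb, ?_, rfl⟩
    field_simp; ring

/-- strict crossing is an open condition -/
lemma Cr.stable {p q r s : ℝ × ℝ} (h : Cr p q r s) : ∃ η > 0, ∀ p' q' r' s' : ℝ × ℝ,
    ‖p' - p‖ < η → ‖q' - q‖ < η → ‖r' - r‖ < η → ‖s' - s‖ < η → Cr p' q' r' s' := by
  have ho : IsOpen {x : (ℝ × ℝ) × (ℝ × ℝ) × (ℝ × ℝ) × (ℝ × ℝ) |
      Cr x.1 x.2.1 x.2.2.1 x.2.2.2} := by
    simp only [Cr, Set.ofPred_and, orient]
    apply IsOpen.inter
    · exact isOpen_lt (by fun_prop) continuous_const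
    · exact isOpen_lt (by fun_prop) continuous_const
  obtain ⟨η, hη, hb⟩ := Metric.isOpen_iff.mp ho (p, q, r, s) h
  refine ⟨η, hη, fun p' q' r' s' h1 h2 h3 h4 => ?_⟩
  have : (p', q', r', s') ∈ Metric.ball (p, q, r, s) η := by
    simp only [Metric.mem_ball, Prod.dist_eq, max_lt_iff]
    simp only [dist_eq_norm, Prod.norm_def, max_lt_iff, Real.norm_eq_abs] at *
    simp only [Prod.fst_sub, Prod.snd_sub] at *
    tauto
  exact hb this

lemma Dj.stable {p q r s : ℝ × ℝ} (h : Dj p q r s) : ∃ η > 0, ∀ p' q' r' s' : ℝ × ℝ,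
    ‖p' - p‖ < η → ‖q' - q‖ < η → ‖r' - r‖ < η → ‖s' - s‖ < η → Dj p' q' r' s' := by
  have ho : IsOpen {x : (ℝ × ℝ) × (ℝ × ℝ) × (ℝ × ℝ) × (ℝ × ℝ) |
      Dj x.1 x.2.1 x.2.2.1 x.2.2.2} := by
    simp only [Dj, Set.ofPred_or, orient]
    apply IsOpen.union
    · exact isOpen_lt continuous_const (by fun_prop)
    · exact isOpen_lt continuous_const (by fun_prop)
  obtain ⟨η, hη, hb⟩ := Metric.isOpen_iff.mp ho (p, q, r, s) h
  refine ⟨η, hη, fun p' q' r' s' h1 h2 h3 h4 => ?_⟩
  have : (p', q', r', s') ∈ Metric.ball (p, q, r, s) η := by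
    simp only [Metric.mem_ball, Prod.dist_eq, max_lt_iff]
    simp only [dist_eq_norm, Prod.norm_def, max_lt_iff, Real.norm_eq_abs] at *
    simp only [Prod.fst_sub, Prod.snd_sub] at *
    tauto
  exact hb this

/-- the affine map sending `(0,0)` to `p` and `(1,0)` to `q` -/
def aff (p q z : ℝ × ℝ) : ℝ × ℝ := (p.1 + z.1 * (q.1 - p.1), p.2 + z.1 * (q.2 - p.2) + z.2)

lemma orient_aff (p q a b c : ℝ × ℝ) :
    orient (aff p q a) (aff p q b) (aff p q c) = (q.1 - p.1) * orient a b c := by
  simp only [orient, aff]; ring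

lemma Cr.aff {p q a b c d : ℝ × ℝ} (hpq : q.1 - p.1 ≠ 0) (h : Cr a b c d) :
    Cr (aff p q a) (aff p q b) (aff p q c) (aff p q d) := by
  have h0 : 0 < (q.1 - p.1) ^ 2 := by positivity
  constructor
  · rw [orient_aff, orient_aff]
    have := mul_neg_of_pos_of_neg h0 h.1
    nlinarith
  · rw [orient_aff, orient_aff]
    have := mul_neg_of_pos_of_neg h0 h.2
    nlinarith

lemma Dj.aff {p q a b c d : ℝ × ℝ} (hpq : q.1 - p.1 ≠ 0) (h : Dj a b c d) :
    Dj (aff p q a) (aff p q b) (aff p q c) (aff p q d) := by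
  have h0 : 0 < (q.1 - p.1) ^ 2 := by positivity
  rcases h with h | h
  · left
    rw [orient_aff, orient_aff]
    have := mul_pos h0 h
    nlinarith
  · right
    rw [orient_aff, orient_aff]
    have := mul_pos h0 h
    nlinarith

end Pool.Agent.Seg82
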